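import Pool.Agent.N718.LB.Stm

/-!
# Part SHORT: few vectors are orthogonal to short vectors
-/

set_option autoImplicit false

namespace Pool.Agent.N232.LB

open Finset
open Pool.Agent.N718.LB (V3 dt)

theorem cnt_class (A d : ℕ) (hd : 1 ≤ d) (S : Finset ℤ) (hS : ∀ x ∈ S, -(A : ℤ) ≤ x ∧ x ≤ A)
    (h : ∀ x ∈ S, ∀ y ∈ S, (d : ℤ) ∣ x - y) : S.card ≤ 2 * A / d + 1 := by
  have hd' : (0 : ℤ) < d := by exact_mod_cast hd
  have h1 : S.card ≤ (Finset.range (2 * A / d + 1)).card := by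
    refine Finset.card_le_card_of_injOn (fun x => ((x + A) / d).toNat) ?_ ?_
    · intro x hx
      have hx1 := hS x hx
      simp only [coe_range, Set.mem_Iio]
      have h2 : (x + A) / (d : ℤ) ≤ (2 * A / d : ℕ) := by
        push_cast
        exact Int.ediv_le_ediv hd' (by linarith [hx1.2])
      have h3 : ((x + A) / (d : ℤ)).toNat ≤ 2 * A / d := by
        rw [Int.toNat_le]
        exact h2
      omega
    · intro x hx y hy hxy
      have hx1 := hS x hx
      have hy1 := hS y hy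
      have a1 : 0 ≤ (x + A) / (d : ℤ) := Int.ediv_nonneg (by linarith) hd'.le
      have a2 : 0 ≤ (y + A) / (d : ℤ) := Int.ediv_nonneg (by linarith) hd'.le
      have h2 : (x + A) / (d : ℤ) = (y + A) / (d : ℤ) := by
        have h3 : (((x + A) / (d : ℤ)).toNat : ℤ) = (((y + A) / (d : ℤ)).toNat : ℤ) := by
          exact_mod_cast hxy
        rwa [Int.toNat_of_nonneg a1, Int.toNat_of_nonneg a2] at h3
      have h4 : (x + A) % (d : ℤ) = (y + A) % (d : ℤ) := by
        rw [Int.emod_eq_emod_iff_emod_sub_eq_zero]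
        apply Int.emod_eq_zero_of_dvd
        have := h x hx y hy
        have e : x + A - (y + A) = x - y := by ring
        rw [e]
        exact this
      have h5 := Int.mul_ediv_add_emod (x + A) d
      have h6 := Int.mul_ediv_add_emod (y + A) d
      rw [h2, h4] at h5
      linarith
  simpa using h1

theorem pairs (A N : ℕ) (hN : 1 ≤ N) (hNA : N ≤ A) (p q : ℤ)
    (hg : ∀ d : ℕ, (d : ℤ) ∣ p → (d : ℤ) ∣ q → d ∣ N → d = 1) :
    ((Icc (-(A : ℤ)) A ×ˢ Icc (-(A : ℤ)) A).filter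
      (fun z => (N : ℤ) ∣ z.1 * p + z.2 * q)).card * N ≤ 9 * A ^ 2 := by
  obtain ⟨g, hgd⟩ : ∃ g : ℕ, g = Int.gcd q N := ⟨_, rfl⟩
  have gN : (g : ℤ) ∣ N := hgd ▸ Int.gcd_dvd_right ..
  have gq : (g : ℤ) ∣ q := hgd ▸ Int.gcd_dvd_left ..
  have gN' : g ∣ N := by exact_mod_cast gN
  obtain ⟨d, hd⟩ := gN'
  have g0 : 1 ≤ g := by
    rcases Nat.eq_zero_or_pos g with h | h
    · subst h
      omega
    · exact h
  have d0 : 1 ≤ d := by
    rcases Nat.eq_zero_or_pos d with h | h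
    · subst h
      omega
    · exact h
  have gle : g ≤ N := by rw [hd]; exact Nat.le_mul_of_pos_right _ d0
  have dle : d ≤ N := by rw [hd]; exact Nat.le_mul_of_pos_left _ g0
  obtain ⟨q', hq'⟩ := gq
  have cop : IsCoprime (d : ℤ) q' := by
    rw [Int.isCoprime_iff_gcd_eq_one]
    have h1 : Int.gcd q N = g * Int.gcd q' d := by
      rw [hq', hd]
      push_cast
      rw [Int.gcd_mul_left]
      simp
    rw [← hgd] at h1
    have h2 : g * 1 = g * Int.gcd q' d := by rw [mul_one]; exact h1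
    rw [Int.gcd_comm]
    exact (Nat.eq_of_mul_eq_mul_left g0 h2).symm
  have copp : IsCoprime (g : ℤ) p := by
    rw [Int.isCoprime_iff_gcd_eq_one]
    refine hg _ (Int.gcd_dvd_right ..) ((Int.gcd_dvd_left ..).trans ⟨q', hq'⟩) ?_
    have h1 : ((Int.gcd g p : ℕ) : ℤ) ∣ (g : ℤ) := Int.gcd_dvd_left ..
    have h2 : Int.gcd g p ∣ g := by exact_mod_cast h1
    exact h2.trans ⟨d, hd⟩
  have key : ((Icc (-(A : ℤ)) A ×ˢ Icc (-(A : ℤ)) A).filter
      (fun z => (N : ℤ) ∣ z.1 * p + z.2 * q)).card ≤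
      (2 * A / d + 1) * ((Icc (-(A : ℤ)) A).filter fun x => (g : ℤ) ∣ x).card := by
    refine Finset.card_le_mul_card_image_of_maps_to (f := Prod.fst) ?_ _ ?_
    · intro z hz
      simp only [mem_filter, mem_product] at hz
      rw [mem_filter]
      refine ⟨hz.1.1, ?_⟩
      have h1 : (g : ℤ) ∣ z.1 * p + z.2 * q := gN.trans hz.2
      have h2 : (g : ℤ) ∣ z.2 * q := Dvd.dvd.mul_left ⟨q', hq'⟩ _
      have h3 : (g : ℤ) ∣ z.1 * p := (dvd_add_left h2).1 h1
      exact copp.dvd_of_dvd_mul_right h3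
    · intro b _
      have h1 : (filter (fun z : ℤ × ℤ => z.1 = b) ((Icc (-(A : ℤ)) A ×ˢ Icc (-(A : ℤ)) A).filter
          (fun z => (N : ℤ) ∣ z.1 * p + z.2 * q))).card ≤
          ((filter (fun z : ℤ × ℤ => z.1 = b) ((Icc (-(A : ℤ)) A ×ˢ Icc (-(A : ℤ)) A).filter
          (fun z => (N : ℤ) ∣ z.1 * p + z.2 * q))).image Prod.snd).card := by
        rw [Finset.card_image_of_injOn]
        intro z hz z' hz' h
        simp only [coe_filter, mem_filter, Set.mem_ofPred_eq] at hz hz'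
        exact Prod.ext (hz.2.trans hz'.2.symm) h
      refine h1.trans (cnt_class A d d0 _ ?_ ?_)
      · intro x hx
        simp only [mem_image, mem_filter, mem_product, mem_Icc] at hx
        obtain ⟨z, hz, rfl⟩ := hx
        exact hz.1.1.2
      · intro x hx y hy
        simp only [mem_image, mem_filter, mem_product, mem_Icc] at hx hy
        obtain ⟨z, hz, rfl⟩ := hx
        obtain ⟨z', hz', rfl⟩ := hy
        have h2 := hz.1.2
        have h3 := hz'.1.2
        rw [hz.2] at h2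
        rw [hz'.2] at h3
        have h4 : (N : ℤ) ∣ (z.2 - z'.2) * q := by
          have h5 := dvd_sub h2 h3
          have e : b * p + z.2 * q - (b * p + z'.2 * q) = (z.2 - z'.2) * q := by ring
          rwa [e] at h5
        have h6 : (g : ℤ) * d ∣ g * ((z.2 - z'.2) * q') := by
          have e1 : (N : ℤ) = g * d := by rw [hd]; push_cast; ring
          have e2 : (z.2 - z'.2) * q = g * ((z.2 - z'.2) * q') := by rw [hq']; ring
          rw [← e1, ← e2]
          exact h4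
        have h7 : (d : ℤ) ∣ (z.2 - z'.2) * q' :=
          (mul_dvd_mul_iff_left (by exact_mod_cast (by omega : g ≠ 0))).1 h6
        exact cop.dvd_of_dvd_mul_right h7
  have k2 : ((Icc (-(A : ℤ)) A).filter fun x => (g : ℤ) ∣ x).card ≤ 2 * A / g + 1 := by
    refine cnt_class A g g0 _ ?_ ?_
    · intro x hx
      simp only [mem_filter, mem_Icc] at hx
      exact hx.1
    · intro x hx y hy
      simp only [mem_filter, mem_Icc] at hx hy
      exact dvd_sub hx.2 hy.2
  have m1 : (2 * A / d + 1) * d ≤ 3 * A := by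
    have := Nat.div_mul_le_self (2 * A) d
    rw [add_mul, one_mul]
    omega
  have m2 : (2 * A / g + 1) * g ≤ 3 * A := by
    have := Nat.div_mul_le_self (2 * A) g
    rw [add_mul, one_mul]
    omega
  calc _ ≤ ((2 * A / d + 1) * (2 * A / g + 1)) * N :=
        Nat.mul_le_mul_right _ (key.trans (Nat.mul_le_mul_left _ k2))
    _ = ((2 * A / d + 1) * d) * ((2 * A / g + 1) * g) := by rw [hd]; ring
    _ ≤ (3 * A) * (3 * A) := Nat.mul_le_mul m1 m2
    _ = 9 * A ^ 2 := by ring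

theorem dt_rot (a v : Fin 3 → ℤ) (k : Fin 3) :
    a k * v k + a (k + 1) * v (k + 1) + a (k + 2) * v (k + 2) = dt a v := by
  fin_cases k
  · rfl
  · show a 1 * v 1 + a 2 * v 2 + a 0 * v 0 = _
    unfold dt
    ring
  · show a 2 * v 2 + a 0 * v 0 + a 1 * v 1 = _
    unfold dt
    ring

theorem fcov : ∀ k i : Fin 3, i = k ∨ i = k + 1 ∨ i = k + 2 := by
  decide

/-- the vectors orthogonal to one vector -/
theorem one (A N : ℕ) (hN : 1 ≤ N) (hNA : N ≤ A) (p q : ℤ)
    (hg : ∀ d : ℕ, (d : ℤ) ∣ p → (d : ℤ) ∣ q → d ∣ N → d = 1) (k : Fin 3) :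
    ((V3 A).filter (fun a => a k * N + a (k + 1) * p + a (k + 2) * q = 0)).card * N ≤
      9 * A ^ 2 := by
  refine le_trans (Nat.mul_le_mul_right _ ?_) (pairs A N hN hNA p q hg)
  refine Finset.card_le_card_of_injOn (fun a => (a (k + 1), a (k + 2))) ?_ ?_
  · intro a ha
    simp only [V3, coe_filter, Fintype.mem_piFinset, mem_Icc, Set.mem_ofPred_eq] at ha
    simp only [coe_filter, mem_product, mem_Icc, Set.mem_ofPred_eq]
    refine ⟨⟨ha.1 _, ha.1 _⟩, ⟨-a k, ?_⟩⟩
    linarith [ha.2]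
  · intro a ha b hb hab
    simp only [V3, coe_filter, Fintype.mem_piFinset, mem_Icc, Set.mem_ofPred_eq] at ha hb
    simp only [Prod.mk.injEq] at hab
    have h1 : a k * N = b k * N := by
      have h2 := ha.2
      have h3 := hb.2
      rw [hab.1, hab.2] at h2
      linarith
    have h2 : a k = b k := mul_right_cancel₀ (by exact_mod_cast (by omega : N ≠ 0)) h1
    funext i
    have h3 : i = k ∨ i = k + 1 ∨ i = k + 2 := fcov k i
    rcases h3 with h | h | h
    · rw [h]; exact h2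
    · rw [h]; exact hab.1
    · rw [h]; exact hab.2

theorem red (R : ℕ) (a v : Fin 3 → ℤ) (hv : v ≠ 0) (hR : ∀ i, |v i| ≤ R) (h : dt a v = 0) :
    ∃ (k : Fin 3) (N : ℕ) (p q : ℤ), 1 ≤ N ∧ N ≤ R ∧ |p| ≤ N ∧ |q| ≤ N ∧
      (∀ d : ℕ, (d : ℤ) ∣ p → (d : ℤ) ∣ q → d ∣ N → d = 1) ∧
      a k * N + a (k + 1) * p + a (k + 2) * q = 0 := by
  obtain ⟨u, hu, hu1⟩ := Finset.extract_gcd v (Finset.univ_nonempty (α := Fin 3))
  obtain ⟨G, hG⟩ : ∃ G : ℤ, G = univ.gcd v := ⟨_, rfl⟩
  rw [← hG] at hu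
  have hG0 : G ≠ 0 := by
    intro h0
    apply hv
    funext i
    rw [hu i (mem_univ i), h0, zero_mul]
    rfl
  have hG1 : 1 ≤ |G| := Int.one_le_abs hG0
  obtain ⟨k, hk⟩ := Finite.exists_max (fun i => |u i|)
  have hu0 : u k ≠ 0 := by
    intro h0
    apply hv
    funext i
    have h1 := hk i
    simp only [h0, abs_zero] at h1
    have h2 : u i = 0 := abs_eq_zero.1 (le_antisymm h1 (abs_nonneg _))
    rw [hu i (mem_univ i), h2, mul_zero]
    rfl
  have huR : ∀ i, |u i| ≤ R := by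
    intro i
    refine le_trans ?_ (hR i)
    rw [hu i (mem_univ i), abs_mul]
    exact le_mul_of_one_le_left (abs_nonneg _) hG1
  have hprim : ∀ d : ℤ, (∀ i, d ∣ u i) → d ∣ 1 := by
    intro d hd
    rw [← hu1]
    exact Finset.dvd_gcd fun i _ => hd i
  have hdt : u k * a k + u (k + 1) * a (k + 1) + u (k + 2) * a (k + 2) = 0 := by
    have h1 : G * (u k * a k + u (k + 1) * a (k + 1) + u (k + 2) * a (k + 2)) = 0 := by
      rw [← h, ← dt_rot a v k, hu k (mem_univ _), hu (k + 1) (mem_univ _),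
        hu (k + 2) (mem_univ _)]
      ring
    exact (mul_eq_zero.1 h1).resolve_left hG0
  have hcov : ∀ i : Fin 3, i = k ∨ i = k + 1 ∨ i = k + 2 := fcov k
  obtain ⟨s, hs, hsk⟩ : ∃ s : ℤ, (s = 1 ∨ s = -1) ∧ s * u k = |u k| := by
    rcases le_total 0 (u k) with h0 | h0
    · exact ⟨1, Or.inl rfl, by rw [one_mul, abs_of_nonneg h0]⟩
    · exact ⟨-1, Or.inr rfl, by rw [abs_of_nonpos h0]; ring⟩
  have hsabs : ∀ x : ℤ, |s * x| = |x| := by
    intro x
    rcases hs with rfl | rfl <;> simp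
  have hNk : ((u k).natAbs : ℤ) = |u k| := by simp
  refine ⟨k, (u k).natAbs, s * u (k + 1), s * u (k + 2), ?_, ?_, ?_, ?_, ?_, ?_⟩
  · exact Int.natAbs_pos.2 hu0
  · have := huR k
    rw [← hNk] at this
    exact_mod_cast this
  · rw [hsabs, hNk]
    exact hk _
  · rw [hsabs, hNk]
    exact hk _
  · intro d h1 h2 h3
    have hsu : ∀ x : ℤ, (d : ℤ) ∣ s * x → (d : ℤ) ∣ x := by
      intro x hx
      rcases hs with rfl | rfl
      · simpa using hx
      · simpa using hx
    have h4 : (d : ℤ) ∣ 1 := by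
      apply hprim
      intro i
      rcases hcov i with h | h | h
      · rw [h]
        exact Int.natCast_dvd.2 h3
      · rw [h]
        exact hsu _ h1
      · rw [h]
        exact hsu _ h2
    have h5 : d ∣ 1 := by exact_mod_cast h4
    exact Nat.dvd_one.1 h5
  · rw [hNk, ← hsk]
    linear_combination s * hdt

open Classical in
theorem short_ : Pool.Agent.N718.LB.S_SHORT := by
  refine ⟨243, by norm_num, fun A R hR hRA => ?_⟩
  -- the family of the sets
  obtain ⟨T, hT⟩ : ∃ T : Fin 3 → ℕ → ℤ × ℤ → Finset (Fin 3 → ℤ), T = fun k N z =>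
    if (∀ d : ℕ, (d : ℤ) ∣ z.1 → (d : ℤ) ∣ z.2 → d ∣ N → d = 1) then
      (V3 A).filter (fun a => a k * (N : ℤ) + a (k + 1) * z.1 + a (k + 2) * z.2 = 0) else ∅ :=
      ⟨_, rfl⟩
  have hTc : ∀ k N z, 1 ≤ N → N ≤ A → ((T k N z).card : ℝ) ≤ 9 * (A : ℝ) ^ 2 / N := by
    intro k N z h1 h2
    have hN0 : (0 : ℝ) < N := by exact_mod_cast h1
    rw [hT]
    simp only
    split_ifs with h
    · rw [le_div_iff₀ hN0]
      exact_mod_cast one A N h1 h2 z.1 z.2 h k
    · simp only [card_empty, Nat.cast_zero]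
      positivity
  have hsub : (V3 A).filter (fun a => ∃ v : Fin 3 → ℤ, v ≠ 0 ∧ (∀ i, |v i| ≤ R) ∧ dt a v = 0) ⊆
      (univ : Finset (Fin 3)).biUnion fun k => (Icc 1 R).biUnion fun N : ℕ =>
        (Icc (-(N : ℤ)) N ×ˢ Icc (-(N : ℤ)) N).biUnion fun z => T k N z := by
    intro a ha
    rw [mem_filter] at ha
    obtain ⟨haA, v, hv, hvR, hd⟩ := ha
    obtain ⟨k, N, p, q, h1, h2, h3, h4, h5, h6⟩ := red R a v hv hvR hd
    simp only [mem_biUnion, mem_univ, true_and, mem_Icc, mem_product]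
    refine ⟨k, N, ⟨h1, h2⟩, (p, q), ⟨abs_le.1 h3, abs_le.1 h4⟩, ?_⟩
    rw [hT]
    simp only
    rw [if_pos h5, mem_filter]
    exact ⟨haA, h6⟩
  have hc : ((((V3 A).filter (fun a => ∃ v : Fin 3 → ℤ, v ≠ 0 ∧ (∀ i, |v i| ≤ R) ∧
      dt a v = 0)).card : ℕ) : ℝ) ≤ ∑ k : Fin 3, ∑ N ∈ Icc 1 R,
        ∑ z ∈ Icc (-(N : ℤ)) N ×ˢ Icc (-(N : ℤ)) N, ((T k N z).card : ℝ) := by
    have h1 := (Finset.card_le_card hsub).trans Finset.card_biUnion_le
    have h2 : ∑ k : Fin 3, ((Icc 1 R).biUnion fun N : ℕ =>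
        (Icc (-(N : ℤ)) N ×ˢ Icc (-(N : ℤ)) N).biUnion fun z => T k N z).card ≤
        ∑ k : Fin 3, ∑ N ∈ Icc 1 R,
        ∑ z ∈ Icc (-(N : ℤ)) N ×ˢ Icc (-(N : ℤ)) N, (T k N z).card := by
      refine Finset.sum_le_sum fun k _ => Finset.card_biUnion_le.trans ?_
      exact Finset.sum_le_sum fun N _ => Finset.card_biUnion_le
    have h3 := h1.trans h2
    exact_mod_cast h3
  refine hc.trans ?_
  have hA0 : (0 : ℝ) ≤ A := Nat.cast_nonneg _
  calc ∑ k : Fin 3, ∑ N ∈ Icc 1 R,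
        ∑ z ∈ Icc (-(N : ℤ)) N ×ˢ Icc (-(N : ℤ)) N, ((T k N z).card : ℝ)
      ≤ ∑ k : Fin 3, ∑ N ∈ Icc 1 R, 81 * (A : ℝ) ^ 2 * R := by
        refine Finset.sum_le_sum fun k _ => Finset.sum_le_sum fun N hN => ?_
        rw [mem_Icc] at hN
        have hN1 : (1 : ℝ) ≤ N := by exact_mod_cast hN.1
        have hNR : (N : ℝ) ≤ R := by exact_mod_cast hN.2
        calc ∑ z ∈ Icc (-(N : ℤ)) N ×ˢ Icc (-(N : ℤ)) N, ((T k N z).card : ℝ)
            ≤ ∑ z ∈ Icc (-(N : ℤ)) N ×ˢ Icc (-(N : ℤ)) N, 9 * (A : ℝ) ^ 2 / N :=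
              Finset.sum_le_sum fun z _ => hTc k N z hN.1 (hN.2.trans hRA)
          _ = ((2 * N + 1 : ℝ)) ^ 2 * (9 * (A : ℝ) ^ 2 / N) := by
              rw [Finset.sum_const, card_product, nsmul_eq_mul]
              have : (Icc (-(N : ℤ)) N).card = 2 * N + 1 := by
                rw [Int.card_Icc]
                omega
              rw [this]
              push_cast
              ring
          _ ≤ (3 * N : ℝ) ^ 2 * (9 * (A : ℝ) ^ 2 / N) := by
              refine mul_le_mul_of_nonneg_right ?_ (by positivity)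
              exact pow_le_pow_left₀ (by positivity) (by linarith) 2
          _ = 81 * (A : ℝ) ^ 2 * N := by
              have : (N : ℝ) ≠ 0 := by positivity
              field_simp
              ring
          _ ≤ _ := mul_le_mul_of_nonneg_left hNR (by positivity)
    _ = 243 * (A : ℝ) ^ 2 * (R : ℝ) ^ 2 := by
        simp only [Finset.sum_const, card_univ, Fintype.card_fin, Nat.card_Icc, nsmul_eq_mul]
        push_cast
        ring

end Pool.Agent.N232.LB
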